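import Pool.Agent.LibLNP.Ver

/-!
The measure of acceptance of the nondeterministic oracle machine, and the enumeration of words.
-/

namespace Pool.Agent.LibLNP

open Pool.Agent.LibComplexity Pool.Agent.LibComplexity.Enc MeasureTheory Function

/-- the oracle with characteristic function `f` -/
def orc (f : List Bool → Bool) : Orc := {w | f w = true}

theorem decide_orc (f : List Bool → Bool) (w : List Bool) [Decidable (w ∈ orc f)] :
    decide (w ∈ orc f) = f w := by
  by_cases h : f w = true
  · rw [h]; exact decide_eq_true h
  · rw [Bool.eq_false_of_not_eq_true h]; exact decide_eq_false h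

theorem someW_orc (f : List Bool → Bool) (s : ℕ) :
    someW (orc f) s = true ↔ ∃ i < s, f (adW i) = true := by
  unfold someW
  rw [List.any_eq_true]
  constructor
  · rintro ⟨i, hi, h⟩
    rw [decide_orc] at h
    exact ⟨i, List.mem_range.1 hi, h⟩
  · rintro ⟨i, hi, h⟩
    exact ⟨i, List.mem_range.2 hi, by rw [decide_orc]; exact h⟩

theorem getD_digW (f : List Bool → Bool) {s i : ℕ} (h : i < s) :
    (digW (orc f) s).getD i false = f (adW i) := by
  classical
  unfold digW
  rw [List.getD_eq_getElem?_getD, List.getElem?_map, List.getElem?_range h]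
  exact decide_orc f (adW i)

theorem cmpL_digW (f : List Bool → Bool) {s : ℕ} {y : List Bool} (hy : y.length = s) :
    cmpL y (digW (orc f) s) = true ↔
      num (fun i => y.getD i false) s ≤ num (fun i => f (adW i)) s := by
  rw [cmpL_eq, cmpBits_iff, hy, num_congr (g := fun i => f (adW i)) fun i hi => getD_digW f hi]

theorem any_bitsOf {s u : ℕ} (hu : u < 2 ^ s) :
    ((bitsOf s u).any fun b => b) = true ↔ 1 ≤ u := by
  rw [List.any_eq_true]
  constructor
  · rintro ⟨b, hb, rfl⟩
    rcases Nat.eq_zero_or_pos u with rfl | h
    · simp [bitsOf] at hb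
    · exact h
  · intro h
    by_contra hcon
    push Not at hcon
    have h1 : num (fun i => u.testBit i) s = num (fun i => (0 : ℕ).testBit i) s := by
      refine num_congr fun i hi => ?_
      by_contra h2
      refine hcon true ?_ rfl
      unfold bitsOf
      rw [List.mem_map]
      refine ⟨i, List.mem_range.2 hi, ?_⟩
      rw [Nat.zero_testBit] at h2
      exact Bool.eq_true_of_not_eq_false h2
    rw [num_testBit, num_testBit, Nat.mod_eq_of_lt hu, Nat.zero_mod] at h1
    omega

variable {c0 : List Bool → List Bool} {nx : List Bool → List Bool → List Bool}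
  {acc : List Bool → Bool}

/-- the oracles for which the machine accepts -/
noncomputable def accSet (c0 : List Bool → List Bool) (nx : List Bool → List Bool → List Bool)
    (acc : List Bool → Bool) (s : ℕ) (x : List Bool) : Set (List Bool → Bool) :=
  {f | ∃ y : List Bool, y.length = s ∧ ver c0 nx acc (orc f) (x, y) = true}

theorem ver_one {f : List Bool → Bool} (h : f [] = true) (x y : List Bool) :
    ver c0 nx acc (orc f) (x, y) = !(someW (orc f) y.length) := by
  unfold ver
  rw [if_pos (by rw [decide_orc]; exact h)]

theorem ver_chain {f : List Bool → Bool} (h : f [] = false) (x y : List Bool)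
    (hW : someW (orc f) y.length = true) :
    ver c0 nx acc (orc f) (x, y) =
      ((y.any fun b => b) && (cmpL y (digW (orc f) y.length) && !(f (adJ y)))) := by
  unfold ver
  rw [if_neg (by rw [decide_orc, h]; exact Bool.false_ne_true), if_pos hW, decide_orc]

theorem ver_conf {f : List Bool → Bool} (h : f [] = false) (x y : List Bool)
    (hW : ¬ someW (orc f) y.length = true) :
    ver c0 nx acc (orc f) (x, y) = (!(f (adC (c0 x))) || (f (adC y.tail) &&
    (acc y.tail || !(f (adC (nx x y.tail)))))) := by
  unfold ver
  rw [if_neg (by rw [decide_orc, h]; exact Bool.false_ne_true), if_neg hW, decide_orc, decide_orc,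
    decide_orc]

/-- If the orbit of the initial configuration contains an accepting one, the machine accepts with
probability greater than a half. -/
theorem half_lt_of_acc {ℓ : ℕ} {x : List Bool} (h0 : (c0 x).length = ℓ)
    (hn : ∀ c, (nx x c).length = ℓ) (hx : ∃ n, acc ((nx x)^[n] (c0 x)) = true) :
    1 / 2 < oracleMeasure.real (accSet c0 nx acc (ℓ + 1) x) := by
  refine half_lt (s := ℓ + 1) fun f hf => ?_
  have hf' : ∀ y : List Bool, y.length = ℓ + 1 → ver c0 nx acc (orc f) (x, y) = false := by
    intro y hy
    refine Bool.eq_false_of_not_eq_true fun h => hf ⟨y, hy, h⟩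
  cases hb : f [] with
  | true =>
    refine Or.inl ⟨hb, ?_⟩
    have h1 := hf' (List.replicate (ℓ + 1) false) (by simp)
    rw [ver_one hb, List.length_replicate, Bool.not_eq_false'] at h1
    exact (someW_orc f _).1 h1
  | false =>
    by_cases hW : someW (orc f) (ℓ + 1) = true
    · refine Or.inr ?_
      simp only [Set.mem_iUnion]
      obtain ⟨i, hi, hi'⟩ := (someW_orc f _).1 hW
      have hlt := num_lt (fun i => f (adW i)) (ℓ + 1)
      have hpos : 1 ≤ num (fun i => f (adW i)) (ℓ + 1) := by
        rcases Nat.eq_zero_or_pos (num (fun i => f (adW i)) (ℓ + 1)) with h | h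
        · have h2 := testBit_num (fun i => f (adW i)) (ℓ + 1) i hi
          rw [h, Nat.zero_testBit, hi'] at h2
          cases h2
        · exact h
      refine ⟨num (fun i => f (adW i)) (ℓ + 1), Finset.mem_Icc.2 ⟨hpos, by omega⟩, hb,
        fun i hi => (testBit_num (fun i => f (adW i)) _ i hi).symm, fun u h1 h2 => ?_⟩
      have h3 := hf' (bitsOf (ℓ + 1) u) (length_bitsOf _ _)
      rw [ver_chain hb _ _ (by rw [length_bitsOf]; exact hW), length_bitsOf,
        (any_bitsOf (by omega)).2 h1, (cmpL_digW f (length_bitsOf _ _)).2] at h3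
      · simpa using h3
      · rw [num_congr (g := fun i => u.testBit i) fun i hi => getD_bitsOf hi, num_testBit,
          Nat.mod_eq_of_lt (by omega)]
        exact h2
    · exfalso
      have h1 : ∀ c : List Bool, c.length = ℓ → f (adC (c0 x)) = true ∧
          (f (adC c) = true → acc c = false ∧ f (adC (nx x c)) = true) := by
        intro c hc
        have h2 := hf' (false :: c) (by simp [hc])
        rw [ver_conf hb _ _ (by rw [List.length_cons, hc]; exact hW), List.tail_cons] at h2
        simpa using h2
      obtain ⟨n, hn'⟩ := hx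
      have h2 : ∀ n, ((nx x)^[n] (c0 x)).length = ℓ ∧ f (adC ((nx x)^[n] (c0 x))) = true := by
        intro n
        induction n with
        | zero => exact ⟨h0, (h1 _ h0).1⟩
        | succ n ih =>
          rw [iterate_succ_apply']
          exact ⟨hn _, ((h1 _ ih.1).2 ih.2).2⟩
      have h3 := ((h1 _ (h2 n).1).2 (h2 n).2).1
      rw [hn'] at h3
      cases h3

/-- If the orbit of the initial configuration contains no accepting one, the machine accepts with
probability at most a half. -/
theorem le_half_of_not_acc {ℓ : ℕ} {x : List Bool} (h0 : (c0 x).length = ℓ)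
    (hn : ∀ c, (nx x c).length = ℓ) (hx : ∀ n, acc ((nx x)^[n] (c0 x)) = false) :
    oracleMeasure.real (accSet c0 nx acc (ℓ + 1) x) ≤ 1 / 2 := by
  classical
  refine le_half (ℓ := ℓ) (σ := fun c => decide (∃ n, (nx x)^[n] (c0 x) = c)) ?_ ?_
  · rintro f hf ⟨y, hy, hv⟩
    rcases hf with ⟨hb, hW⟩ | hf
    · rw [ver_one hb, hy, (someW_orc f _).2 hW] at hv
      cases hv
    · simp only [Set.mem_iUnion] at hf
      obtain ⟨v, hv', hb, hdig, hch⟩ := hf
      rw [Finset.mem_Icc] at hv'
      have hnum : num (fun i => f (adW i)) (ℓ + 1) = v := by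
        rw [num_congr hdig, num_testBit, Nat.mod_eq_of_lt (by omega)]
      have hW : someW (orc f) (ℓ + 1) = true := by
        rw [someW_orc]
        by_contra hcon
        push Not at hcon
        have h1 : num (fun i => f (adW i)) (ℓ + 1) = num (fun i => (0 : ℕ).testBit i) (ℓ + 1) :=
          num_congr fun i hi => by
            rw [Nat.zero_testBit]; exact Bool.eq_false_of_not_eq_true (hcon i hi)
        rw [hnum, num_testBit, Nat.zero_mod] at h1
        omega
      rw [ver_chain hb _ _ (by rw [hy]; exact hW), hy, Bool.and_eq_true, Bool.and_eq_true] at hv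
      obtain ⟨h1, h2, h3⟩ := hv
      rw [cmpL_digW f hy, hnum] at h2
      have h4 := num_lt (fun i => y.getD i false) (ℓ + 1)
      have h5 := eq_bitsOf hy
      have h6 : 1 ≤ num (fun i => y.getD i false) (ℓ + 1) := by
        rw [← any_bitsOf h4, ← h5]
        exact h1
      have h7 := hch _ h6 h2
      rw [← h5] at h7
      rw [h7] at h3
      cases h3
  · rintro f ⟨hb, hdig, hσ⟩ ⟨y, hy, hv⟩
    have hW : ¬ someW (orc f) y.length = true := by
      rw [someW_orc, hy]
      rintro ⟨i, hi, h⟩
      rw [hdig i hi] at h
      cases h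
    have hc : y.tail.length = ℓ := by rw [List.length_tail, hy]; rfl
    rw [ver_conf hb _ _ hW, hσ _ h0, hσ _ hc, hσ _ (hn _)] at hv
    simp only at hv
    have h1 : decide (∃ n, (nx x)^[n] (c0 x) = c0 x) = true := decide_eq_true ⟨0, rfl⟩
    rw [h1, Bool.not_true, Bool.false_or, Bool.and_eq_true] at hv
    obtain ⟨h2, h3⟩ := hv
    obtain ⟨n, h4⟩ := of_decide_eq_true h2
    have h5 : decide (∃ m, (nx x)^[m] (c0 x) = nx x y.tail) = true :=
      decide_eq_true ⟨n + 1, by rw [iterate_succ_apply', h4]⟩
    rw [h5, ← h4, hx n] at h3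
    cases h3

end Pool.Agent.LibLNP
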