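import Mathlib

/-!
The uniform product measure on oracles, and the measure of the events of a gadget.
-/

namespace Pool.Agent.LibLNP

open MeasureTheory

/-- the fair coin -/
noncomputable def coin : Measure Bool := (PMF.uniformOfFintype Bool).toMeasure

instance : IsProbabilityMeasure coin := by unfold coin; infer_instance

theorem coin_singleton (b : Bool) : coin {b} = 2⁻¹ := by
  unfold coin
  rw [PMF.toMeasure_apply_singleton _ _ (MeasurableSet.singleton b)]
  simp [PMF.uniformOfFintype_apply]

/-- The uniform product measure on the sets of words, where a set is given by its characteristic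
function: each word is in the set independently with probability `1/2`. -/
noncomputable def oracleMeasure : Measure (List Bool → Bool) := Measure.infinitePi fun _ => coin

instance : IsProbabilityMeasure oracleMeasure := by unfold oracleMeasure; infer_instance

/-- The oracles that agree with `a` on the finite set `S`. -/
def cyl (S : Finset (List Bool)) (a : List Bool → Bool) : Set (List Bool → Bool) :=
  {f | ∀ i ∈ S, f i = a i}

theorem measurableSet_cyl (S : Finset (List Bool)) (a : List Bool → Bool) :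
    MeasurableSet (cyl S a) := by
  have : cyl S a = ⋂ i ∈ S, (fun f : List Bool → Bool => f i) ⁻¹' {a i} := by
    ext f
    simp [cyl]
  rw [this]
  exact Finset.measurableSet_biInter _ fun i _ =>
    measurable_pi_apply i (MeasurableSet.singleton _)

theorem real_cyl (S : Finset (List Bool)) (a : List Bool → Bool) :
    oracleMeasure.real (cyl S a) = (1 / 2) ^ S.card := by
  have h : cyl S a = Set.pi (S : Set (List Bool)) fun i => {a i} := by
    ext f
    simp [cyl, Set.mem_pi]
  unfold Measure.real oracleMeasure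
  rw [h, Measure.infinitePi_pi _ (fun i _ => MeasurableSet.singleton _)]
  simp [coin_singleton]

/-! ### Binary numbers -/

/-- the number with the binary digits `f 0, f 1, ..., f (k-1)` -/
def num (f : ℕ → Bool) : ℕ → ℕ
  | 0 => 0
  | k + 1 => num f k + (f k).toNat * 2 ^ k

theorem num_lt (f : ℕ → Bool) (k : ℕ) : num f k < 2 ^ k := by
  induction k with
  | zero => simp [num]
  | succ k ih =>
    have h : (f k).toNat ≤ 1 := Bool.toNat_le _
    have h2 : (f k).toNat * 2 ^ k ≤ 2 ^ k := by nlinarith [Nat.zero_le (2 ^ k)]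
    simp only [num]
    rw [pow_succ]
    omega

theorem num_congr {f g : ℕ → Bool} {k : ℕ} (h : ∀ i < k, f i = g i) : num f k = num g k := by
  induction k with
  | zero => rfl
  | succ k ih =>
    simp only [num]
    rw [ih fun i hi => h i (by omega), h k (by omega)]

theorem num_testBit (v k : ℕ) : num (fun i => v.testBit i) k = v % 2 ^ k := by
  induction k with
  | zero => simp [num, Nat.mod_one]
  | succ k ih =>
    simp only [num]
    rw [ih, Nat.toNat_testBit, Nat.mod_pow_succ]
    ring

theorem num_inj {f g : ℕ → Bool} {k : ℕ} (h : num f k = num g k) : ∀ i < k, f i = g i := by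
  induction k with
  | zero => intro i hi; omega
  | succ k ih =>
    simp only [num] at h
    have h1 := num_lt f k
    have h2 := num_lt g k
    have h3 : f k = g k := by
      cases hf : f k <;> cases hg : g k <;> simp only [hf, hg, Bool.toNat_true,
        Bool.toNat_false] at h ⊢
      · omega
      · omega
    rw [h3] at h
    intro i hi
    rcases Nat.lt_succ_iff_lt_or_eq.1 hi with h4 | h4
    · exact ih (by omega) i h4
    · rw [h4, h3]

theorem testBit_num (f : ℕ → Bool) (k : ℕ) : ∀ i < k, (num f k).testBit i = f i := by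
  refine num_inj ?_
  rw [num_testBit, Nat.mod_eq_of_lt (num_lt f k)]

/-- comparison of binary numbers, starting from the least significant digits -/
def cmpBits (f g : ℕ → Bool) : ℕ → Bool
  | 0 => true
  | k + 1 => if f k = g k then cmpBits f g k else g k

theorem cmpBits_iff (f g : ℕ → Bool) (k : ℕ) : cmpBits f g k = true ↔ num f k ≤ num g k := by
  induction k with
  | zero => simp [cmpBits, num]
  | succ k ih =>
    have h1 := num_lt f k
    have h2 := num_lt g k
    simp only [cmpBits, num]
    by_cases h : f k = g k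
    · rw [if_pos h, ih, h]
      exact (Nat.add_le_add_iff_right).symm
    · rw [if_neg h]
      cases hf : f k <;> cases hg : g k
      · rw [hf, hg] at h; exact absurd rfl h
      · simp only [true_iff, Bool.toNat_true, Bool.toNat_false]; omega
      · simp only [Bool.false_eq_true, false_iff, Bool.toNat_true, Bool.toNat_false]; omega
      · rw [hf, hg] at h; exact absurd rfl h

/-- the list of the first `s` binary digits of `v` -/
def bitsOf (s v : ℕ) : List Bool := (List.range s).map fun i => v.testBit i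

theorem length_bitsOf (s v : ℕ) : (bitsOf s v).length = s := by simp [bitsOf]

theorem getD_bitsOf {s v i : ℕ} (h : i < s) : (bitsOf s v).getD i false = v.testBit i := by
  simp [bitsOf, List.getD, h]

theorem eq_bitsOf {s : ℕ} {y : List Bool} (h : y.length = s) :
    y = bitsOf s (num (fun i => y.getD i false) s) := by
  apply List.ext_getElem
  · rw [length_bitsOf, h]
  · intro i h1 h2
    have h3 := testBit_num (fun i => y.getD i false) s i (by omega)
    simp only [bitsOf, List.getElem_map, List.getElem_range]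
    rw [h3]
    simp [List.getD, h1]

theorem bitsOf_inj {s u v : ℕ} (hu : u < 2 ^ s) (hv : v < 2 ^ s) (h : bitsOf s u = bitsOf s v) :
    u = v := by
  have h1 : num (fun i => u.testBit i) s = num (fun i => v.testBit i) s := by
    refine num_congr fun i hi => ?_
    rw [← getD_bitsOf hi, ← getD_bitsOf hi, h]
  rwa [num_testBit, num_testBit, Nat.mod_eq_of_lt hu, Nat.mod_eq_of_lt hv] at h1

/-! ### The events -/

/-- the address of the `i`-th digit of the random number -/
def adW (i : ℕ) : List Bool := false :: false :: List.replicate i true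

/-- the address of the chain variable of `y` -/
def adJ (y : List Bool) : List Bool := false :: true :: y

/-- the address of the variable of the configuration `c` -/
def adC (c : List Bool) : List Bool := true :: c

theorem adW_inj : Function.Injective adW := by
  intro i j h
  have := congrArg List.length h
  simpa [adW] using this

/-- an assignment -/
def asg (b : Bool) (w : ℕ → Bool) (σ : List Bool → Bool) : List Bool → Bool
  | [] => b
  | false :: false :: l => w l.length
  | false :: true :: _ => true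
  | true :: c => σ c
  | [false] => false

/-- the addresses of the control bit and the digits -/
def adr0 (s : ℕ) : Finset (List Bool) := insert [] ((Finset.range s).image adW)

theorem card_adr0 (s : ℕ) : (adr0 s).card = s + 1 := by
  unfold adr0
  rw [Finset.card_insert_of_notMem, Finset.card_image_of_injective _ adW_inj, Finset.card_range]
  simp [adW]

/-- the addresses of the control bit, the digits and the chain variables up to `v` -/
def adr1 (s v : ℕ) : Finset (List Bool) :=
  adr0 s ∪ (Finset.Icc 1 v).image fun u => adJ (bitsOf s u)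

theorem card_adr1 {s v : ℕ} (hv : v < 2 ^ s) : (adr1 s v).card = s + 1 + v := by
  unfold adr1
  rw [Finset.card_union_of_disjoint, card_adr0, Finset.card_image_of_injOn, Nat.card_Icc]
  · omega
  · intro u hu u' hu' h
    rw [Finset.mem_coe, Finset.mem_Icc] at hu hu'
    simp only [adJ, List.cons.injEq, true_and] at h
    exact bitsOf_inj (by omega) (by omega) h
  · rw [Finset.disjoint_left]
    intro a ha hb
    simp only [adr0, Finset.mem_insert, Finset.mem_image] at ha hb
    obtain ⟨u, -, rfl⟩ := hb
    rcases ha with h | ⟨i, -, h⟩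
    · simp [adJ] at h
    · simp [adJ, adW] at h

/-- the addresses of the control bit, the digits and the configurations -/
def adr2 (s ℓ : ℕ) : Finset (List Bool) :=
  adr0 s ∪ (Finset.range (2 ^ ℓ)).image fun u => adC (bitsOf ℓ u)

theorem card_adr2 (s ℓ : ℕ) : (adr2 s ℓ).card = s + 1 + 2 ^ ℓ := by
  unfold adr2
  rw [Finset.card_union_of_disjoint, card_adr0, Finset.card_image_of_injOn, Finset.card_range]
  · intro u hu u' hu' h
    rw [Finset.mem_coe, Finset.mem_range] at hu hu'
    simp only [adC, List.cons.injEq, true_and] at h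
    exact bitsOf_inj (by omega) (by omega) h
  · rw [Finset.disjoint_left]
    intro a ha hb
    simp only [adr0, Finset.mem_insert, Finset.mem_image] at ha hb
    obtain ⟨u, -, rfl⟩ := hb
    rcases ha with h | ⟨i, -, h⟩
    · simp [adC] at h
    · simp [adC, adW] at h

/-- control bit one, digits not all zero -/
def N1 (s : ℕ) : Set (List Bool → Bool) := {f | f [] = true ∧ ∃ i < s, f (adW i) = true}

/-- control bit zero, digits of `v`, chain variables one -/
def N2 (s v : ℕ) : Set (List Bool → Bool) :=
  {f | f [] = false ∧ (∀ i < s, f (adW i) = v.testBit i) ∧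
    ∀ u, 1 ≤ u → u ≤ v → f (adJ (bitsOf s u)) = true}

/-- control bit zero, digits zero, configurations given by `σ` -/
def N3 (s ℓ : ℕ) (σ : List Bool → Bool) : Set (List Bool → Bool) :=
  {f | f [] = false ∧ (∀ i < s, f (adW i) = false) ∧ ∀ c, c.length = ℓ → f (adC c) = σ c}

theorem N1_eq (s : ℕ) : N1 s = cyl {[]} (fun _ => true) \
    cyl (adr0 s) (asg true (fun _ => false) fun _ => false) := by
  ext f
  simp only [N1, cyl, adr0, Set.mem_ofPred_eq, Set.mem_sdiff, Finset.mem_singleton, forall_eq,
    Finset.mem_insert, Finset.mem_image, Finset.mem_range, forall_eq_or_imp, not_and, not_forall]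
  refine and_congr_right fun h => ?_
  constructor
  · rintro ⟨i, hi, h1⟩ -
    refine ⟨adW i, ⟨i, hi, rfl⟩, ?_⟩
    rw [h1]
    simp [asg, adW]
  · intro h1
    obtain ⟨a, ⟨i, hi, rfl⟩, h2⟩ := h1 (by rw [h]; rfl)
    refine ⟨i, hi, ?_⟩
    simpa [asg, adW] using h2

theorem N2_eq (s v : ℕ) :
    N2 s v = cyl (adr1 s v) (asg false (fun i => v.testBit i) fun _ => false) := by
  ext f
  simp only [N2, cyl, adr1, adr0, Set.mem_ofPred_eq, Finset.mem_union, Finset.mem_insert,
    Finset.mem_image, Finset.mem_range, Finset.mem_Icc]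
  constructor
  · rintro ⟨h1, h2, h3⟩ a ((rfl | ⟨i, hi, rfl⟩) | ⟨u, hu, rfl⟩)
    · rw [h1]; rfl
    · rw [h2 i hi]; simp [asg, adW]
    · rw [h3 u hu.1 hu.2]; rfl
  · intro h
    refine ⟨h [] (Or.inl (Or.inl rfl)), fun i hi => ?_, fun u h1 h2 => ?_⟩
    · rw [h (adW i) (Or.inl (Or.inr ⟨i, hi, rfl⟩))]; simp [asg, adW]
    · rw [h _ (Or.inr ⟨u, ⟨h1, h2⟩, rfl⟩)]; rfl

theorem N3_eq (s ℓ : ℕ) (σ : List Bool → Bool) :
    N3 s ℓ σ = cyl (adr2 s ℓ) (asg false (fun _ => false) σ) := by
  ext f
  simp only [N3, cyl, adr2, adr0, Set.mem_ofPred_eq, Finset.mem_union, Finset.mem_insert,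
    Finset.mem_image, Finset.mem_range]
  constructor
  · rintro ⟨h1, h2, h3⟩ a ((rfl | ⟨i, hi, rfl⟩) | ⟨u, hu, rfl⟩)
    · rw [h1]; rfl
    · rw [h2 i hi]; simp [asg, adW]
    · rw [h3 _ (length_bitsOf _ _)]; rfl
  · intro h
    refine ⟨h [] (Or.inl (Or.inl rfl)), fun i hi => ?_, fun c hc => ?_⟩
    · rw [h (adW i) (Or.inl (Or.inr ⟨i, hi, rfl⟩))]; simp [asg, adW]
    · rw [eq_bitsOf hc, h _ (Or.inr ⟨_, num_lt _ _, rfl⟩)]; rfl

theorem real_N1 (s : ℕ) : oracleMeasure.real (N1 s) = 1 / 2 - (1 / 2) ^ (s + 1) := by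
  rw [N1_eq, measureReal_sdiff]
  · rw [real_cyl, real_cyl, card_adr0, Finset.card_singleton, pow_one]
  · intro f hf
    simp only [cyl, adr0, Finset.mem_insert, forall_eq_or_imp, Set.mem_ofPred_eq] at hf
    simp only [cyl, Finset.mem_singleton, forall_eq, Set.mem_ofPred_eq]
    exact hf.1
  · exact measurableSet_cyl _ _

theorem real_N2 {s v : ℕ} (hv : v < 2 ^ s) :
    oracleMeasure.real (N2 s v) = (1 / 2) ^ (s + 1) * (1 / 2) ^ v := by
  rw [N2_eq, real_cyl, card_adr1 hv, pow_add]

theorem real_N3 (s ℓ : ℕ) (σ : List Bool → Bool) :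
    oracleMeasure.real (N3 s ℓ σ) = (1 / 2) ^ (s + 1) * (1 / 2) ^ (2 ^ ℓ) := by
  rw [N3_eq, real_cyl, card_adr2, pow_add]

theorem sum_half (V : ℕ) : ∑ v ∈ Finset.Icc 1 V, (1 / 2 : ℝ) ^ v = 1 - (1 / 2) ^ V := by
  induction V with
  | zero => simp
  | succ V ih =>
    rw [Finset.sum_Icc_succ_top (by omega), ih, pow_succ]
    ring

/-- the union of the events `N1` and `N2` -/
def N12 (s : ℕ) : Set (List Bool → Bool) := N1 s ∪ ⋃ v ∈ Finset.Icc 1 (2 ^ s - 1), N2 s v

theorem measurableSet_N2s (s : ℕ) : MeasurableSet (⋃ v ∈ Finset.Icc 1 (2 ^ s - 1), N2 s v) :=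
  Finset.measurableSet_biUnion _ fun v _ => by rw [N2_eq]; exact measurableSet_cyl _ _

theorem measurableSet_N12 (s : ℕ) : MeasurableSet (N12 s) := by
  refine MeasurableSet.union ?_ (measurableSet_N2s s)
  rw [N1_eq]
  exact (measurableSet_cyl _ _).diff (measurableSet_cyl _ _)

theorem real_N12 (s : ℕ) :
    oracleMeasure.real (N12 s) = 1 / 2 - (1 / 2) ^ (s + 1) * (1 / 2) ^ (2 ^ s - 1) := by
  have hpos : 0 < 2 ^ s := by positivity
  unfold N12
  rw [measureReal_union ?_ (measurableSet_N2s s) (measure_ne_top _ _) (measure_ne_top _ _),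
    real_N1, measureReal_biUnion_finset]
  · have : ∑ v ∈ Finset.Icc 1 (2 ^ s - 1), oracleMeasure.real (N2 s v) =
        ∑ v ∈ Finset.Icc 1 (2 ^ s - 1), (1 / 2) ^ (s + 1) * (1 / 2 : ℝ) ^ v := by
      refine Finset.sum_congr rfl fun v hv => ?_
      rw [Finset.mem_Icc] at hv
      exact real_N2 (by omega)
    rw [this, ← Finset.mul_sum, sum_half]
    ring
  · intro u hu v hv huv
    simp only [Finset.coe_Icc, Set.mem_Icc] at hu hv
    rw [Function.onFun, Set.disjoint_left]
    rintro f ⟨-, h1, -⟩ ⟨-, h2, -⟩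
    apply huv
    have h3 : num (fun i => u.testBit i) s = num (fun i => v.testBit i) s :=
      num_congr fun i hi => by rw [← h1 i hi, ← h2 i hi]
    rwa [num_testBit, num_testBit, Nat.mod_eq_of_lt (by omega), Nat.mod_eq_of_lt (by omega)] at h3
  · intro v _
    rw [N2_eq]
    exact measurableSet_cyl _ _
  · rw [Set.disjoint_left]
    rintro f ⟨h1, -⟩ h2
    simp only [Set.mem_iUnion] at h2
    obtain ⟨v, -, h3, -⟩ := h2
    rw [h1] at h3
    cases h3

/-- If the complement of an event is contained in `N12`, then its measure is greater than a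
half. -/
theorem half_lt {s : ℕ} {E : Set (List Bool → Bool)} (h : Eᶜ ⊆ N12 s) :
    1 / 2 < oracleMeasure.real E := by
  have h1 : (N12 s)ᶜ ⊆ E := by
    rw [← compl_compl E]
    exact Set.compl_subset_compl.2 h
  have h2 : oracleMeasure.real (N12 s)ᶜ = 1 - oracleMeasure.real (N12 s) :=
    probReal_compl_eq_one_sub (measurableSet_N12 s)
  have h3 := measureReal_mono (μ := oracleMeasure) h1
  rw [h2, real_N12] at h3
  have h4 : (0 : ℝ) < (1 / 2) ^ (s + 1) * (1 / 2) ^ (2 ^ s - 1) := by positivity
  linarith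

/-- If an event is disjoint from `N12` and `N3`, then its measure is at most a half. -/
theorem le_half {ℓ : ℕ} {σ : List Bool → Bool} {E : Set (List Bool → Bool)}
    (h1 : N12 (ℓ + 1) ⊆ Eᶜ) (h2 : N3 (ℓ + 1) ℓ σ ⊆ Eᶜ) : oracleMeasure.real E ≤ 1 / 2 := by
  have h3 : N12 (ℓ + 1) ∪ N3 (ℓ + 1) ℓ σ ⊆ Eᶜ := Set.union_subset h1 h2
  have hm : MeasurableSet (N3 (ℓ + 1) ℓ σ) := by rw [N3_eq]; exact measurableSet_cyl _ _
  have h4 : E ⊆ (N12 (ℓ + 1) ∪ N3 (ℓ + 1) ℓ σ)ᶜ := by
    rw [← compl_compl E]
    exact Set.compl_subset_compl.2 h3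
  have h5 : oracleMeasure.real (N12 (ℓ + 1) ∪ N3 (ℓ + 1) ℓ σ)ᶜ =
      1 - oracleMeasure.real (N12 (ℓ + 1) ∪ N3 (ℓ + 1) ℓ σ) :=
    probReal_compl_eq_one_sub ((measurableSet_N12 _).union hm)
  have hd : Disjoint (N12 (ℓ + 1)) (N3 (ℓ + 1) ℓ σ) := by
    rw [Set.disjoint_left]
    rintro f hf ⟨h6, h7, -⟩
    rcases hf with ⟨h8, -⟩ | hf
    · rw [h6] at h8; cases h8
    · simp only [Set.mem_iUnion] at hf
      obtain ⟨v, hv, -, h8, -⟩ := hf
      rw [Finset.mem_Icc] at hv
      have h9 : num (fun i => v.testBit i) (ℓ + 1) = num (fun i => (0 : ℕ).testBit i) (ℓ + 1) :=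
        num_congr fun i hi => by rw [← h8 i hi, h7 i hi]; simp
      rw [num_testBit, num_testBit, Nat.mod_eq_of_lt (by omega), Nat.zero_mod] at h9
      omega
  have h6 := measureReal_mono (μ := oracleMeasure) h4
  rw [h5, measureReal_union hd hm, real_N12, real_N3] at h6
  have h7 : (1 / 2 : ℝ) ^ (2 ^ (ℓ + 1) - 1) ≤ (1 / 2) ^ (2 ^ ℓ) := by
    apply pow_le_pow_of_le_one (by norm_num) (by norm_num)
    have : 1 ≤ 2 ^ ℓ := Nat.one_le_two_pow
    rw [pow_succ]
    omega
  have h8 : (1 / 2 : ℝ) ^ (ℓ + 1 + 1) * (1 / 2) ^ (2 ^ (ℓ + 1) - 1) ≤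
      (1 / 2) ^ (ℓ + 1 + 1) * (1 / 2) ^ (2 ^ ℓ) :=
    mul_le_mul_of_nonneg_left h7 (by positivity)
  linarith

end Pool.Agent.LibLNP
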