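import Pool.Agent.LibComplexity.Space
import Pool.Agent.LibLNP.Meas

/-!
The verifier of the nondeterministic oracle machine.
-/

namespace Pool.Agent.LibLNP

open Pool.Agent.LibComplexity Pool.Agent.LibComplexity.Enc

/-- comparison of two lists of digits, least significant digits first -/
def cmpL (y w : List Bool) : Bool :=
  (List.range y.length).foldl
    (fun st i => if y.getD i false = w.getD i false then st else w.getD i false) true

theorem cmpL_eq (y w : List Bool) :
    cmpL y w = cmpBits (fun i => y.getD i false) (fun i => w.getD i false) y.length := by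
  unfold cmpL
  generalize y.length = n
  induction n with
  | zero => rfl
  | succ n ih =>
    rw [List.range_succ, List.foldl_append, ih]
    rfl

theorem ptf_cmpL {𝒜 : Set Orc} {α : Type} [Enc α] {f g : Orc → α → List Bool} (hf : PTf 𝒜 f)
    (hg : PTf 𝒜 g) : PTf 𝒜 (fun A x => cmpL (f A x) (g A x)) := by
  have h1 : PTf 𝒜 (fun A (p : α × Bool × ℕ) => (f A p.1).getD p.2.2 false) :=
    (hf.comp PTf.id.fst).listGetD PTf.id.snd.snd (PTf.const false)
  have h2 : PTf 𝒜 (fun A (p : α × Bool × ℕ) => (g A p.1).getD p.2.2 false) :=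
    (hg.comp PTf.id.fst).listGetD PTf.id.snd.snd (PTf.const false)
  have h3 : PTf 𝒜 (fun A (p : α × Bool × ℕ) =>
      if (f A p.1).getD p.2.2 false = (g A p.1).getD p.2.2 false then p.2.1
        else (g A p.1).getD p.2.2 false) :=
    PTf.ifP (PTf.decide_eq h1 h2) PTf.id.snd.fst h2
  exact PTf.foldl (l := fun A x => List.range (f A x).length)
    (g := fun A x st i => if (f A x).getD i false = (g A x).getD i false then st
      else (g A x).getD i false) (h := fun _ _ => true) hf.length.range (PTf.const true) h3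
    (PB.const 3) (fun A _ x k => sz_bool _)

open Classical in
/-- one of the digits of the random number is not zero -/
noncomputable def someW (A : Orc) (s : ℕ) : Bool :=
  (List.range s).any fun i => decide (adW i ∈ A)

open Classical in
/-- the digits of the random number -/
noncomputable def digW (A : Orc) (s : ℕ) : List Bool :=
  (List.range s).map fun i => decide (adW i ∈ A)

open Classical in
/-- The verifier: on input `x`, oracle `A` and guess `y`. -/
noncomputable def ver (c0 : List Bool → List Bool) (nx : List Bool → List Bool → List Bool)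
    (acc : List Bool → Bool) (A : Orc) (p : List Bool × List Bool) : Bool :=
  if decide ([] ∈ A) = true then !(someW A p.2.length)
  else if someW A p.2.length = true then
    (p.2.any fun b => b) && (cmpL p.2 (digW A p.2.length) && !(decide (adJ p.2 ∈ A)))
  else !(decide (adC (c0 p.1) ∈ A)) || (decide (adC p.2.tail ∈ A) &&
    (acc p.2.tail || !(decide (adC (nx p.1 p.2.tail) ∈ A))))

theorem ptf_adW {𝒜 : Set Orc} {α : Type} [Enc α] {f : Orc → α → ℕ} (hf : PTf 𝒜 f) :
    PTf 𝒜 (fun A x => adW (f A x)) := by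
  unfold adW
  with_reducible
    apply PTf.cons; apply PTf.const; apply PTf.cons; apply PTf.const; apply PTf.replicate
    assumption; apply PTf.const

theorem ptf_adJ {𝒜 : Set Orc} {α : Type} [Enc α] {f : Orc → α → List Bool} (hf : PTf 𝒜 f) :
    PTf 𝒜 (fun A x => adJ (f A x)) := by
  unfold adJ
  with_reducible
    apply PTf.cons; apply PTf.const; apply PTf.cons; apply PTf.const; assumption

theorem ptf_adC {𝒜 : Set Orc} {α : Type} [Enc α] {f : Orc → α → List Bool} (hf : PTf 𝒜 f) :
    PTf 𝒜 (fun A x => adC (f A x)) := by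
  unfold adC
  with_reducible
    apply PTf.cons; apply PTf.const; assumption

theorem ptf_someW {𝒜 : Set Orc} {α : Type} [Enc α] {f : Orc → α → ℕ} (hf : PTf 𝒜 f) :
    PTf 𝒜 (fun A x => someW A (f A x)) :=
  PTf.any hf.range (ptf_adW PTf.id.snd).ask

theorem ptf_digW {𝒜 : Set Orc} {α : Type} [Enc α] {f : Orc → α → ℕ} (hf : PTf 𝒜 f) :
    PTf 𝒜 (fun A x => digW A (f A x)) :=
  PTf.map hf.range (ptf_adW PTf.id.snd).ask

theorem ptf_ver {𝒜 : Set Orc} {c0 : List Bool → List Bool}
    {nx : List Bool → List Bool → List Bool} {acc : List Bool → Bool}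
    (h0 : PTf 𝒜 (fun _ x => c0 x))
    (hn : PTf 𝒜 (fun _ (p : List Bool × List Bool) => nx p.1 p.2))
    (ha : PTf 𝒜 (fun _ c => acc c)) : PTf 𝒜 (ver c0 nx acc) := by
  have e1 : PTf 𝒜 (fun _ (p : List Bool × List Bool) => p.2.length) := PTf.id.snd.length
  have e2 : PTf 𝒜 (fun _ (p : List Bool × List Bool) => p.2.tail) := PTf.id.snd.tail
  have a1 := h0.comp (PTf.id (𝒜 := 𝒜) (α := List Bool × List Bool)).fst
  have a2 := ha.comp e2
  have a3 := hn.comp ((PTf.id (𝒜 := 𝒜) (α := List Bool × List Bool)).fst.pair e2)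
  have b1 := (ptf_adC a1).ask
  have b2 := (ptf_adC e2).ask
  have b3 := (ptf_adC a3).ask
  have b4 := (ptf_adJ (PTf.id (𝒜 := 𝒜) (α := List Bool × List Bool)).snd).ask
  have b5 := ptf_someW e1
  have b6 := ptf_cmpL (PTf.id (𝒜 := 𝒜) (α := List Bool × List Bool)).snd (ptf_digW e1)
  have b7 : PTf 𝒜 (fun _ (p : List Bool × List Bool) => p.2.any fun b => b) :=
    PTf.any (p := fun _ _ b => b) PTf.id.snd PTf.id.snd
  have b8 := (PTf.const (𝒜 := 𝒜) (α := List Bool × List Bool) ([] : List Bool)).ask
  exact PTf.ite b8 b5.bnot (PTf.ite b5 (b7.band (b6.band b4.bnot))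
    (b1.bnot.bor (b2.band (a2.bor b3.bnot))))

end Pool.Agent.LibLNP
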